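import Mathlib
import Pool.Agent.V11152.MatroidSubdiv

/-!
# A connected submatroid polytope that is not a cell of any matroid subdivision
-/

namespace Pool.Agent.Results.MP_454fc7_co.NotACell

open Finset Pool.Agent.V11152.MatroidSubdiv

/-- A matroid (given by its bases) is connected if it is not a direct sum of two matroids on
nonempty ground sets `A` and `Aᶜ`. -/
def IsConnected {E : Type} [Fintype E] [DecidableEq E] (N : Finset (Finset E)) : Prop :=
  ¬ ∃ (A : Finset E) (N1 N2 : Finset (Finset E)), A.Nonempty ∧ Aᶜ.Nonempty ∧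
    IsMatroid N1 ∧ IsMatroid N2 ∧ (∀ B ∈ N1, B ⊆ A) ∧ (∀ B ∈ N2, B ⊆ Aᶜ) ∧
    ∀ B, B ∈ N ↔ ∃ B1 ∈ N1, ∃ B2 ∈ N2, B = B1 ∪ B2

/-- The seven three-point lines of `M`: the six lines of the non-Fano matroid on `{1,...,7}` and the
line `{0,2,3}`. -/
def linesM : Finset (Finset (Fin 8)) :=
  {{0, 2, 3}, {1, 4, 5}, {1, 6, 7}, {2, 4, 6}, {2, 5, 7}, {3, 4, 7}, {3, 5, 6}}

/-- `M`: rank 3 on `{0,...,7}`, the bases are the 3-sets that are not lines. -/
def M : Finset (Finset (Fin 8)) := (powersetCard 3 univ).filter (fun B => B ∉ linesM)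

/-- parallel classes of `M'`: `5` and `7` are parallel to `3`, `6` is parallel to `4`. -/
def cls : Fin 8 → Fin 8 := ![0, 1, 2, 3, 4, 3, 4, 3]

/-- `M'`: the bases are the 3-sets whose classes are distinct and do not form one of the lines
`{0,2,3}`, `{1,3,4}`. -/
def M' : Finset (Finset (Fin 8)) := (powersetCard 3 univ).filter
  (fun B => (B.image cls).card = 3 ∧ B.image cls ≠ {0, 2, 3} ∧ B.image cls ≠ {1, 3, 4})

lemma isMatroid_M : IsMatroid M := by
  refine ⟨⟨{0, 1, 2}, by decide +kernel⟩, ?_⟩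
  decide +kernel

lemma isMatroid_M' : IsMatroid M' := by
  refine ⟨⟨{0, 1, 2}, by decide +kernel⟩, ?_⟩
  decide +kernel

lemma card_M : ∀ B ∈ M, B.card = 3 := by decide +kernel

lemma card_M' : ∀ B ∈ M', B.card = 3 := by decide +kernel

lemma connected_of {N : Finset (Finset (Fin 8))} (hc : ∀ B ∈ N, B.card = 3)
    (h : ∀ A : Finset (Fin 8), A.Nonempty → Aᶜ.Nonempty →
      ∃ B ∈ N, ∃ B' ∈ N, (B ∩ A).card ≠ (B' ∩ A).card) : IsConnected N := by
  rintro ⟨A, N1, N2, hA, hA', _, _, h1, h2, hN⟩
  obtain ⟨B, hB, B', hB', hne⟩ := h A hA hA'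
  obtain ⟨B1, hB1, B2, hB2, rfl⟩ := (hN B).1 hB
  obtain ⟨C1, hC1, C2, hC2, rfl⟩ := (hN B').1 hB'
  have hmix : B1 ∪ C2 ∈ N := (hN _).2 ⟨B1, hB1, C2, hC2, rfl⟩
  have hdisj : ∀ X ∈ N1, ∀ Y ∈ N2, Disjoint X Y := by
    intro X hX Y hY
    exact Finset.disjoint_of_subset_left (h1 X hX)
      (Finset.disjoint_of_subset_right (h2 Y hY) disjoint_compl_right)
  have hint : ∀ X ∈ N1, ∀ Y ∈ N2, (X ∪ Y) ∩ A = X := by
    intro X hX Y hY
    rw [Finset.union_inter_distrib_right, Finset.inter_eq_left.2 (h1 X hX)]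
    have : Y ∩ A = ∅ := by
      rw [← Finset.disjoint_iff_inter_eq_empty]
      exact Finset.disjoint_of_subset_left (h2 Y hY) disjoint_compl_left
    rw [this, Finset.union_empty]
  rw [hint _ hB1 _ hB2, hint _ hC1 _ hC2] at hne
  have e1 := hc _ hmix
  have e2 := hc _ hB'
  rw [Finset.card_union_of_disjoint (hdisj _ hB1 _ hC2)] at e1
  rw [Finset.card_union_of_disjoint (hdisj _ hC1 _ hC2)] at e2
  omega

lemma connected_M : IsConnected M := connected_of card_M (by decide +kernel)

lemma connected_M' : IsConnected M' := connected_of card_M' (by decide +kernel)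

lemma M'_ssubset : M' ⊂ M := by decide +kernel

lemma poly_ssubset : poly M' ⊂ poly M := by
  have hs := M'_ssubset
  refine ⟨poly_mono hs.1, fun h => hs.2 (subset_of_poly h)⟩

/-- No matroid subdivision of `P_M` has `P_{M'}` among its cells. -/
lemma not_cell (S : Set (Finset (Finset (Fin 8)))) (hS : IsMatroidSubdivision M S) : M' ∉ S := by
  intro hM'
  have t0 : Tog S {1, 2, 5} {2, 3, 4} := ⟨M', hM', by decide +kernel, by decide +kernel⟩
  have t1 : Tog S {1, 3, 5} {2, 3, 4} := by
    have h := move hS t0 (e := 3) (f := 2) (by decide) (by decide) (by decide +kernel)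
      (by decide +kernel)
    have e : insert 3 (({1, 2, 5} : Finset (Fin 8)).erase 2) = {1, 3, 5} := by decide
    rwa [e] at h
  have t2 : Tog S {1, 3, 6} {2, 3, 4} := by
    have h := move' hS t1 (e := 6) (f := 5) (by decide) (by decide) (by decide +kernel)
      (by decide +kernel)
    have e : insert 6 (({1, 3, 5} : Finset (Fin 8)).erase 5) = {1, 3, 6} := by decide
    rwa [e] at h
  have t3 : Tog S {2, 3, 7} {1, 3, 6} := by
    have h := move' hS t2.symm (e := 7) (f := 4) (by decide) (by decide) (by decide +kernel)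
      (by decide +kernel)
    have e : insert 7 (({2, 3, 4} : Finset (Fin 8)).erase 4) = {2, 3, 7} := by decide
    rwa [e] at h
  have t4 : Tog S {1, 2, 6} {2, 3, 7} := by
    have h := move hS t3.symm (e := 2) (f := 3) (by decide) (by decide) (by decide +kernel)
      (by decide +kernel)
    have e : insert 2 (({1, 3, 6} : Finset (Fin 8)).erase 3) = {1, 2, 6} := by decide
    rwa [e] at h
  have t5 : Tog S {1, 2, 4} {2, 3, 7} := by
    have h := move' hS t4 (e := 4) (f := 6) (by decide) (by decide) (by decide +kernel)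
      (by decide +kernel)
    have e : insert 4 (({1, 2, 6} : Finset (Fin 8)).erase 6) = {1, 2, 4} := by decide
    rwa [e] at h
  have t6 : Tog S {2, 3, 5} {1, 2, 4} := by
    have h := move' hS t5.symm (e := 5) (f := 7) (by decide) (by decide) (by decide +kernel)
      (by decide +kernel)
    have e : insert 5 (({2, 3, 7} : Finset (Fin 8)).erase 7) = {2, 3, 5} := by decide
    rwa [e] at h
  have hmid : mid ({2, 3, 5} : Finset (Fin 8)) {1, 2, 4} = mid {1, 2, 5} {2, 3, 4} := by
    funext i
    fin_cases i <;> simp [mid, indic]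
  have hm : mid ({2, 3, 5} : Finset (Fin 8)) {1, 2, 4} ∈ poly M' := by
    rw [hmid]
    exact mid_mem (by decide +kernel) (by decide +kernel)
  have h := (tog_mem hS t6 hM' hm).1
  exact absurd h (by decide +kernel)

/-- There are connected matroids `M`, `M'` of rank 3 on 8 elements with `P_{M'} ⊊ P_M` such that no
matroid subdivision of `P_M` has `P_{M'}` as a cell. -/
theorem result : ∃ M M' : Finset (Finset (Fin 8)), IsMatroid M ∧ IsMatroid M' ∧ IsConnected M ∧
    IsConnected M' ∧ poly M' ⊂ poly M ∧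
    ∀ S : Set (Finset (Finset (Fin 8))), IsMatroidSubdivision M S → M' ∉ S :=
  ⟨M, M', isMatroid_M, isMatroid_M', connected_M, connected_M', poly_ssubset, not_cell⟩

end Pool.Agent.Results.MP_454fc7_co.NotACell
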